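import Mathlib
import Pool.Agent.W188.MZ.Stm

set_option autoImplicit false

/-! Project MZ (helper188), part PTS: points on `N` lines and nodes. -/

open Complex MeasureTheory Set Filter Topology

namespace Pool.Agent.W22.MZ

open Pool.Agent.W188.QS Pool.Agent.W188.GP Pool.Agent.W188.MZ

theorem ww_form (h1 : StTau) (hXX : ∀ t : ℝ, ‖XX (cp t)‖ = 1) {c : ℂ} {N : ℕ} (hN : 1 ≤ N)
    (hc : ‖c‖ = 1) : ∃ γ : ℝ, ∀ t : ℝ, 100 ≤ t →
      ww c N (cp t) = cexp (((2 * (Real.pi * (N * (γ - vv t))) : ℝ) : ℂ) * I) := by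
  obtain ⟨-, -, -, -, -, -, -, -, -, -, hX, -, -⟩ := h1
  set z : ℂ := c * (XX (cp 100))⁻¹ ^ N with hz
  have hz1 : ‖z‖ = 1 := by
    rw [hz, norm_mul, norm_pow, norm_inv, hXX, hc]
    simp
  have hNR : (N : ℝ) ≠ 0 := by
    have : (1 : ℝ) ≤ N := by exact_mod_cast hN
    linarith
  have hza : z = cexp ((arg z : ℂ) * I) := by
    have := Complex.norm_mul_exp_arg_mul_I z
    rw [hz1] at this
    simpa using this.symm
  refine ⟨arg z / (2 * Real.pi * N), fun t ht => ?_⟩
  have e1 : ww c N (cp t) = z * cexp (-(2 * Real.pi * vv t * I)) ^ N := by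
    unfold ww
    rw [hX t ht, hz, mul_inv, mul_pow, ← Complex.exp_neg]
    ring
  rw [e1, hza, ← Complex.exp_nat_mul, ← Complex.exp_add, ← hza]
  congr 1
  have hpi := Real.pi_ne_zero
  have e2 : 2 * (Real.pi * (N * (arg z / (2 * Real.pi * N) - vv t))) =
      arg z - 2 * Real.pi * N * vv t := by
    field_simp
  rw [e2]
  push_cast
  ring

theorem ww_one (h1 : StTau) (hXX : ∀ t : ℝ, ‖XX (cp t)‖ = 1) {c : ℂ} {N : ℕ} (hN : 1 ≤ N)
    (hc : ‖c‖ = 1) : ∃ γ : ℝ, ∀ t : ℝ, 100 ≤ t →
      (ww c N (cp t) = 1 ↔ ∃ k : ℤ, N * (vv t - γ) = k) := by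
  obtain ⟨γ, hγ⟩ := ww_form h1 hXX hN hc
  refine ⟨γ, fun t ht => ?_⟩
  rw [hγ t ht, Complex.exp_eq_one_iff]
  constructor
  · rintro ⟨n, hn⟩
    refine ⟨-n, ?_⟩
    have h2 : ((2 * (Real.pi * (N * (γ - vv t))) : ℝ) : ℂ) = ((n * (2 * Real.pi) : ℝ) : ℂ) := by
      apply mul_right_cancel₀ Complex.I_ne_zero
      rw [hn]
      push_cast
      ring
    have h3 : 2 * (Real.pi * (N * (γ - vv t))) = n * (2 * Real.pi) := by exact_mod_cast h2
    have h4 : N * (γ - vv t) = n := by
      have := Real.pi_pos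
      have h5 : (2 * Real.pi) * (N * (γ - vv t) - n) = 0 := by linarith
      rcases mul_eq_zero.1 h5 with h6 | h6
      · linarith
      · linarith
    push_cast
    linarith
  · rintro ⟨n, hn⟩
    refine ⟨-n, ?_⟩
    have e : (N : ℝ) * (γ - vv t) = -n := by linarith
    rw [e]
    push_cast
    ring

theorem mz_pts (h1 : StTau) (h2 : StLine) : Pool.Agent.W188.MZ.StPts := by
  classical
  intro c N hc hN
  obtain ⟨γ, hγ⟩ := ww_one h1 h2.2.1 hN hc
  obtain ⟨-, -, -, -, -, htv, hvt, hmono, -, -, -, -, hnd⟩ := h1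
  refine ⟨γ, fun f a b ha hab => ?_⟩
  have hN0 : (0 : ℝ) < N := by exact_mod_cast hN
  have hNZ : (0 : ℤ) < N := by exact_mod_cast hN
  have hset : PP c N ∩ Ioc a b = ((Finset.range N).biUnion (fun j =>
      (nd (γ + j / N) a b).image (fun n : ℤ => tau (n + (γ + j / N)))) : Finset ℝ) := by
    ext t
    simp only [Set.mem_inter_iff, Finset.coe_biUnion, Finset.coe_range, Set.mem_iUnion,
      Finset.coe_image, Set.mem_image, Finset.mem_coe, Set.mem_Iio, exists_prop]
    constructor
    · rintro ⟨⟨ht1, ht2⟩, ht3, ht4⟩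
      obtain ⟨m, hm⟩ := (hγ t ht1.le).1 ht2
      have hj0 : 0 ≤ m % N := Int.emod_nonneg _ hNZ.ne'
      have hj1 : m % N < N := Int.emod_lt_of_pos _ hNZ
      have hcast : (((m % N).toNat : ℕ) : ℝ) = ((m % N : ℤ) : ℝ) := by
        have : (((m % N).toNat : ℕ) : ℤ) = m % N := Int.toNat_of_nonneg hj0
        exact_mod_cast this
      have hv : ((m / N : ℤ) : ℝ) + (γ + ((m % N).toNat : ℝ) / N) = vv t := by
        rw [hcast]
        have h5 : ((m : ℤ) : ℝ) = ((m % N : ℤ) : ℝ) + N * ((m / N : ℤ) : ℝ) := by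
          have := Int.emod_add_mul_ediv m N
          exact_mod_cast this.symm
        rw [h5] at hm
        field_simp
        linarith
      refine ⟨(m % N).toNat, by omega, m / N, ?_, ?_⟩
      · rw [hnd, hv, htv]
        exact ⟨ht3, ht4⟩
      · rw [hv, htv]
    · rintro ⟨j, hj, n, hn, rfl⟩
      rw [hnd] at hn
      have h100 : 100 < tau (n + (γ + j / N)) := lt_of_le_of_lt ha hn.1
      refine ⟨⟨h100, ?_⟩, hn.1, hn.2⟩
      rw [hγ _ h100.le, hvt]
      refine ⟨n * N + j, ?_⟩
      push_cast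
      field_simp
      ring
  constructor
  · rw [hset]
    exact Finset.finite_toSet _
  · rw [hset, finsum_mem_coe_finset, Finset.sum_biUnion]
    · refine Finset.sum_congr rfl fun j _ => ?_
      rw [Finset.sum_image]
      intro n _ n' _ h
      have h3 := hmono.injective h
      have h4 : (n : ℝ) = n' := by linarith
      exact_mod_cast h4
    · intro j hj j' hj' hjj
      rw [Function.onFun, Finset.disjoint_left]
      intro t ht ht'
      rw [Finset.mem_image] at ht ht'
      obtain ⟨n, _, rfl⟩ := ht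
      obtain ⟨n', _, h⟩ := ht'
      have h3 := hmono.injective h
      have h4 : (n' : ℝ) * N + j' = n * N + j := by
        have h5 : ((n' : ℝ) + j' / N) * N = (n + j / N) * N := by
          congr 1
          linarith
        rw [add_mul, add_mul, div_mul_cancel₀ _ hN0.ne', div_mul_cancel₀ _ hN0.ne'] at h5
        exact h5
      have h6 : n' * N + (j' : ℤ) = n * N + (j : ℤ) := by exact_mod_cast h4
      have hj1 : (j : ℤ) < N := by
        have := Finset.mem_range.1 (Finset.mem_coe.1 hj)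
        exact_mod_cast this
      have hj2 : (j' : ℤ) < N := by
        have := Finset.mem_range.1 (Finset.mem_coe.1 hj')
        exact_mod_cast this
      apply hjj
      have h7 : ((j' : ℤ)) % N = (j : ℤ) % N := by
        have h8 : (n' * N + (j' : ℤ)) % N = (n * N + (j : ℤ)) % N := by rw [h6]
        rw [Int.add_comm (n' * N), Int.add_comm (n * N), Int.add_mul_emod_self_right,
          Int.add_mul_emod_self_right] at h8
        exact h8
      rw [Int.emod_eq_of_lt (Int.natCast_nonneg _) hj2,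
        Int.emod_eq_of_lt (Int.natCast_nonneg _) hj1] at h7
      exact_mod_cast h7.symm

end Pool.Agent.W22.MZ
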